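import Pool.Agent.helper90.ZD.SpecB

set_option autoImplicit false

namespace Pool.Agent.ZD

theorem BAR : BAR_stmt := by
  intro V Q K X L R Z hV hK hX hL hR hZ hQ h
  rcases hR.eq_or_lt with h0 | h0
  · left
    rw [← h0]
    nlinarith [mul_nonneg hK hX]
  · have hQ0 : 0 < Q := lt_of_lt_of_le (by positivity) hQ
    by_cases hc : Z ^ (1 / 3 : ℝ) * (L * R) ^ (1 / 3 : ℝ) * Q ^ (1 / 3 : ℝ) ≤ X * L * R
    · left
      have h1 : V ^ 2 * (L * R ^ 2) ≤ V ^ 2 * Q :=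
        mul_le_mul_of_nonneg_left hQ (by positivity)
      have h2 : K * (X * L * R + Z ^ (1 / 3 : ℝ) * (L * R) ^ (1 / 3 : ℝ) * Q ^ (1 / 3 : ℝ)) ≤
          K * (X * L * R + X * L * R) :=
        mul_le_mul_of_nonneg_left (by linarith) hK
      have h3 : (V ^ 2 * R) * (L * R) ≤ (2 * K * X) * (L * R) := by
        calc (V ^ 2 * R) * (L * R) = V ^ 2 * (L * R ^ 2) := by ring
          _ ≤ K * (X * L * R + X * L * R) := le_trans h1 (le_trans h h2)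
          _ = (2 * K * X) * (L * R) := by ring
      exact le_of_mul_le_mul_right h3 (by positivity)
    · right
      push Not at hc
      have h2 : V ^ 2 * Q ≤
          2 * K * (Z ^ (1 / 3 : ℝ) * (L * R) ^ (1 / 3 : ℝ) * Q ^ (1 / 3 : ℝ)) := by
        refine le_trans h ?_
        have : K * (X * L * R + Z ^ (1 / 3 : ℝ) * (L * R) ^ (1 / 3 : ℝ) * Q ^ (1 / 3 : ℝ)) ≤
            K * (2 * (Z ^ (1 / 3 : ℝ) * (L * R) ^ (1 / 3 : ℝ) * Q ^ (1 / 3 : ℝ))) :=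
          mul_le_mul_of_nonneg_left (by linarith) hK
        linarith
      have hcube : ∀ x : ℝ, 0 ≤ x → (x ^ (1 / 3 : ℝ)) ^ 3 = x := by
        intro x hx
        rw [← Real.rpow_natCast, ← Real.rpow_mul hx]
        norm_num
      have h3 : (V ^ 2 * Q) ^ 3 ≤
          (2 * K * (Z ^ (1 / 3 : ℝ) * (L * R) ^ (1 / 3 : ℝ) * Q ^ (1 / 3 : ℝ))) ^ 3 :=
        pow_le_pow_left₀ (by positivity) h2 3
      have h4 : (2 * K * (Z ^ (1 / 3 : ℝ) * (L * R) ^ (1 / 3 : ℝ) * Q ^ (1 / 3 : ℝ))) ^ 3 =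
          8 * K ^ 3 * Z * (L * R) * Q := by
        have : (2 * K * (Z ^ (1 / 3 : ℝ) * (L * R) ^ (1 / 3 : ℝ) * Q ^ (1 / 3 : ℝ))) ^ 3 =
          8 * K ^ 3 * (Z ^ (1 / 3 : ℝ)) ^ 3 * ((L * R) ^ (1 / 3 : ℝ)) ^ 3 *
            (Q ^ (1 / 3 : ℝ)) ^ 3 := by ring
        rw [this, hcube Z hZ, hcube (L * R) (by positivity), hcube Q hQ0.le]
      rw [h4] at h3
      have h5 : (V ^ 6 * Q ^ 2) * Q ≤ (8 * K ^ 3 * Z * (L * R)) * Q := by
        calc (V ^ 6 * Q ^ 2) * Q = (V ^ 2 * Q) ^ 3 := by ring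
          _ ≤ _ := h3
      have h6 : V ^ 6 * Q ^ 2 ≤ 8 * K ^ 3 * Z * (L * R) := le_of_mul_le_mul_right h5 hQ0
      have h7 : (L * R ^ 2) ^ 2 ≤ Q ^ 2 := pow_le_pow_left₀ (by positivity) hQ 2
      have h8 : V ^ 6 * (L * R ^ 2) ^ 2 ≤ V ^ 6 * Q ^ 2 :=
        mul_le_mul_of_nonneg_left h7 (by positivity)
      have h9 : (V ^ 6 * (L * R ^ 3)) * (L * R) ≤ (8 * K ^ 3 * Z) * (L * R) := by
        calc (V ^ 6 * (L * R ^ 3)) * (L * R) = V ^ 6 * (L * R ^ 2) ^ 2 := by ring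
          _ ≤ 8 * K ^ 3 * Z * (L * R) := le_trans h8 h6
      exact le_of_mul_le_mul_right h9 (by positivity)

end Pool.Agent.ZD
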